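import Mathlib
import Pool.Agent.Lib.MP_799c44_al.Grp

set_option autoImplicit false

namespace Pool.Agent.Results.MP_799c44_al.DirectPowers

/-- The ball of radius `n` about the identity for the word length with respect to `S ∪ S⁻¹`. -/
def wordBall {G : Type*} [Group G] (S : Set G) (n : ℕ) : Set G :=
  {g : G | ∃ l : List G, l.length ≤ n ∧ (∀ x ∈ l, x ∈ S ∨ x⁻¹ ∈ S) ∧ l.prod = g}

/-- The standard generating set of the direct power `G^d` (here `Fin d → G`): the tuples with one
entry in `S` and all other entries trivial. -/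
def powGen {G : Type*} [Group G] (S : Set G) (d : ℕ) : Set (Fin d → G) :=
  {f | ∃ (i : Fin d) (x : G), x ∈ S ∧ f = Pi.mulSingle i x}

/-- For every finitely generated group of subexponential growth, the limit superior of the
sphere-to-ball ratios of the direct power `G^d` tends to zero as `d` grows. -/
theorem result {G : Type*} [Group G] (S : Set G) (hfin : S.Finite)
    (hgen : Subgroup.closure S = ⊤)
    (hsub : Filter.Tendsto (fun n : ℕ => ((wordBall S n).ncard : ℝ) ^ ((1 : ℝ) / (n : ℝ)))
      Filter.atTop (nhds 1)) :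
    ∀ ε : ℝ, 0 < ε → ∃ d₀ : ℕ, ∀ d ≥ d₀, ∀ᶠ n : ℕ in Filter.atTop,
      ((wordBall (powGen S d) (n + 1) \ wordBall (powGen S d) n).ncard : ℝ) ≤
        ε * ((wordBall (powGen S d) n).ncard : ℝ) :=
  fun _ hε => MP799c44.direct_powers hgen hfin hsub hε

end Pool.Agent.Results.MP_799c44_al.DirectPowers
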