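import Mathlib
import Pool.Agent.Lib.MP_799c44_al.GriF

set_option autoImplicit false

namespace Pool.Agent.Results.MP_799c44_al.IntermediateGrowth

/-- The ball of radius `n` about the identity for the word length with respect to `S ∪ S⁻¹`. -/
def wordBall {G : Type*} [Group G] (S : Set G) (n : ℕ) : Set G :=
  {g : G | ∃ l : List G, l.length ≤ n ∧ (∀ x ∈ l, x ∈ S ∨ x⁻¹ ∈ S) ∧ l.prod = g}

/-- Every finitely generated group `A` of subexponential growth embeds in a finitely generated
group `G` of intermediate growth (subexponential and faster than every polynomial) which has a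
finite generating set `S` with sphere-to-ball ratio tending to zero. -/
theorem result (A : Type) [Group A] (U : Finset A)
    (hU : Subgroup.closure (U : Set A) = ⊤)
    (hsub : Filter.Tendsto
      (fun n : ℕ => ((wordBall (U : Set A) n).ncard : ℝ) ^ ((1 : ℝ) / (n : ℝ)))
      Filter.atTop (nhds 1)) :
    ∃ (G : Type) (_ : Group G) (S : Finset G) (ι : A →* G),
      Function.Injective ι ∧
      Subgroup.closure (S : Set G) = ⊤ ∧
      Filter.Tendsto
        (fun n : ℕ => ((wordBall (S : Set G) n).ncard : ℝ) ^ ((1 : ℝ) / (n : ℝ)))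
        Filter.atTop (nhds 1) ∧
      (∀ k : ℕ, ∀ᶠ n : ℕ in Filter.atTop,
        (n : ℝ) ^ k ≤ ((wordBall (S : Set G) n).ncard : ℝ)) ∧
      Filter.Tendsto
        (fun n : ℕ => ((wordBall (S : Set G) (n + 1) \ wordBall (S : Set G) n).ncard : ℝ) /
          ((wordBall (S : Set G) n).ncard : ℝ))
        Filter.atTop (nhds 0) :=
  MP799c44.embedding A U hU hsub

end Pool.Agent.Results.MP_799c44_al.IntermediateGrowth
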