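import Mathlib
import Pool.Agent.Lib.MP_799c44_al.WrA

set_option autoImplicit false

namespace Pool.Agent.Results.MP_799c44_al.WreathProducts

open SemidirectProduct Asymptotics

/-- The ball of radius `n` about the identity for the word length with respect to `S ∪ S⁻¹`.
It is contained in the subgroup generated by `S` and is the ball of that group. -/
def wordBall {G : Type*} [Group G] (S : Set G) (n : ℕ) : Set G :=
  {g : G | ∃ l : List G, l.length ≤ n ∧ (∀ x ∈ l, x ∈ S ∨ x⁻¹ ∈ S) ∧ l.prod = g}

/-- The number of elements of length at most `n`. -/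
noncomputable def ballSize {G : Type*} [Group G] (S : Set G) (n : ℕ) : ℝ :=
  ((wordBall S n).ncard : ℝ)

/-- The number of elements of length exactly `n + 1`. -/
noncomputable def nextSphereSize {G : Type*} [Group G] (S : Set G) (n : ℕ) : ℝ :=
  ((wordBall S (n + 1) \ wordBall S n).ncard : ℝ)

/-- The standard generating set of the permutational wreath product of `H` by `Γ`, where `Γ` acts
on `X`: the elements of `S ⊆ Γ` and the functions with a value in `T ⊆ H` at `x₀` and value `1`
elsewhere, as elements of the semidirect product of `X → H` by `Γ` (acting by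
`(γ • f) x = f (γ⁻¹ • x)`). The group generated is the restricted wreath product over the orbit
of `x₀`. -/
def wreathGen {Γ X H : Type*} [Group Γ] [MulAction Γ X] [DecidableEq X] [Group H] (x₀ : X)
    (S : Set Γ) (T : Set H) : Set ((X → H) ⋊[mulAutArrow] Γ) :=
  {w | (∃ s ∈ S, w = inr s) ∨ ∃ h ∈ T, w = inl (Pi.mulSingle x₀ h)}

/-- The generating set of `A × ℤ` given by a generating set `U` of `A`. -/
def lampGen {A : Type*} [Group A] (U : Set A) : Set (A × Multiplicative ℤ) :=
  {p | (∃ a ∈ U, p = (a, 1)) ∨ p = (1, Multiplicative.ofAdd 1)}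

/-- The generator of `ℤ/2`. -/
def cyclicGen : Set (Multiplicative (ZMod 2)) := {Multiplicative.ofAdd 1}

/-- The sphere-to-ball ratio tends to zero for the permutational wreath product of `A × ℤ` by
`Γ`, if `A` has subexponential growth, the orbit is infinite, and the logarithm of the growth
function of the wreath product of `ℤ/2` by `Γ` is of smaller order. -/
theorem result {Γ X A : Type*} [Group Γ] [MulAction Γ X] [DecidableEq X] [Group A]
    (x₀ : X) (horb : (MulAction.orbit Γ x₀).Infinite)
    (S : Set Γ) (hS : S.Finite) (hSgen : Subgroup.closure S = ⊤)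
    (U : Set A) (hU : U.Finite) (hUgen : Subgroup.closure U = ⊤)
    (hsub : Filter.Tendsto (fun n : ℕ => ballSize U n ^ ((1 : ℝ) / (n : ℝ)))
      Filter.atTop (nhds 1))
    (hlog : (fun n : ℕ => Real.log (ballSize (wreathGen x₀ S cyclicGen) n)) =o[Filter.atTop]
      (fun n : ℕ => Real.log (ballSize (wreathGen x₀ S (lampGen U)) n))) :
    Filter.Tendsto (fun n : ℕ => nextSphereSize (wreathGen x₀ S (lampGen U)) n /
      ballSize (wreathGen x₀ S (lampGen U)) n) Filter.atTop (nhds 0) := by
  refine MP799c44.wreath_AZ hS (MP799c44.exists_excursions hSgen horb) hUgen hU (MP799c44.sph_subexp hUgen hU hsub) ?_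
  intro C
  have hT2 : (MP799c44.T2).Finite := Set.finite_singleton _
  have h := hlog.def (c := 1 / ((C : ℝ) + 1)) (by positivity)
  filter_upwards [h] with n hn
  have h1 := MP799c44.one_le_ball (MP799c44.WG_finite (x₀ := x₀) hS hT2) n
  have h2 := MP799c44.one_le_ball
    (MP799c44.WG_finite (x₀ := x₀) hS (MP799c44.TA_finite hU)) n
  have h1' : (1:ℝ) ≤ ((MP799c44.WB (MP799c44.WG x₀ S MP799c44.T2) n).ncard : ℝ) := by
    exact_mod_cast h1
  have h2' : (1:ℝ) ≤ ((MP799c44.WB (MP799c44.WG x₀ S (MP799c44.TA U)) n).ncard : ℝ) := by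
    exact_mod_cast h2
  change ‖Real.log ((MP799c44.WB (MP799c44.WG x₀ S MP799c44.T2) n).ncard : ℝ)‖ ≤
    1 / ((C : ℝ) + 1) *
      ‖Real.log ((MP799c44.WB (MP799c44.WG x₀ S (MP799c44.TA U)) n).ncard : ℝ)‖ at hn
  rw [Real.norm_of_nonneg (Real.log_nonneg h1'), Real.norm_of_nonneg (Real.log_nonneg h2')] at hn
  have h3 : (C:ℝ) * Real.log ((MP799c44.WB (MP799c44.WG x₀ S MP799c44.T2) n).ncard : ℝ) ≤
      Real.log ((MP799c44.WB (MP799c44.WG x₀ S (MP799c44.TA U)) n).ncard : ℝ) := by
    have h4 := Real.log_nonneg h1'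
    have h5 := Real.log_nonneg h2'
    rw [one_div_mul_eq_div, le_div_iff₀ (by positivity)] at hn
    linarith
  rw [← Real.log_le_log_iff (by positivity) (by linarith), Real.log_pow]
  exact h3

end Pool.Agent.Results.MP_799c44_al.WreathProducts
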